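import Pool.Agent.Run7.h870.LE.App
import Pool.Agent.Run7.h870.LJ.M
import Pool.Agent.N511.LL.B

/-!
# LE/Fin: the large deviations of the prime counts of `n² + a` (helper870)
-/

set_option autoImplicit false

namespace Pool.Agent.Run7.h870.LE

open Finset Filter Topology Classical
open Pool.Agent.N511.LL
open Pool.Agent.Run7.h870.LJ

lemma Q_small (N : ℕ) (hN : 2 ≤ N) : (Q (Yn N) : ℝ) ≤ (N:ℝ) ^ 2 / Real.log N := by
  have hN0 : (0:ℝ) < N := by exact_mod_cast (by omega : 0 < N)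
  have hN1 : (1:ℝ) < N := by exact_mod_cast (by omega : 1 < N)
  have hL : 0 < Real.log N := Real.log_pos hN1
  have h1 : (Yn N : ℝ) ≤ Real.log N / 2 := Nat.floor_le (by positivity)
  have h2 : (4:ℝ) ^ (Yn N) ≤ N := by
    have e1 : (4:ℝ) ^ (Yn N) = Real.exp (Yn N * Real.log 4) := by
      rw [← Real.log_pow, Real.exp_log (by positivity)]
    have e2 : Real.log 4 ≤ 2 := by
      have : Real.log 4 = 2 * Real.log 2 := by
        rw [show (4:ℝ) = 2 ^ 2 by norm_num, Real.log_pow]; norm_num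
      rw [this]
      have := Real.log_two_lt_d9
      linarith
    rw [e1]
    calc Real.exp (Yn N * Real.log 4) ≤ Real.exp (Real.log N) := by
          apply Real.exp_le_exp.2
          have : 0 ≤ (Yn N : ℝ) := by positivity
          nlinarith [Real.log_nonneg (show (1:ℝ) ≤ 4 by norm_num)]
      _ = N := Real.exp_log hN0
  refine (Q_le _).trans (h2.trans ?_)
  rw [le_div_iff₀ hL]
  have h3 : Real.log N ≤ N := (Real.log_le_sub_one_of_pos hN0).trans (by linarith)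
  nlinarith

/-- comparison of counts -/
lemma cmp (M : ℕ) (Ex : Finset ℕ) (p q : ℕ → Prop) (h : ∀ a ∈ Icc 1 M, a ∉ Ex → p a → q a) :
    (#((Icc 1 M).filter p) : ℝ) ≤ #((Icc 1 M).filter q) + #Ex := by
  have h1 : (Icc 1 M).filter p ⊆ (Icc 1 M).filter q ∪ Ex := by
    intro a ha
    obtain ⟨ha1, ha2⟩ := mem_filter.1 ha
    rw [mem_union]
    by_cases hE : a ∈ Ex
    · exact Or.inr hE
    · exact Or.inl (mem_filter.2 ⟨ha1, h a ha1 hE ha2⟩)
  have h2 := (card_le_card h1).trans (card_union_le _ _)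
  exact_mod_cast h2

/-- the count of the large values -/
noncomputable def cU (N : ℕ) (t : ℝ) : ℝ :=
  #((Icc 1 (N ^ 2)).filter (fun a : ℕ => t * (N / (2 * Real.log N)) ≤ (P a N : ℝ)))

/-- the count of the small values -/
noncomputable def cD (N : ℕ) (t : ℝ) : ℝ :=
  #((Icc 1 (N ^ 2)).filter (fun a : ℕ => (P a N : ℝ) ≤ 1 / t * (N / (2 * Real.log N))))

theorem hcU (η : ℝ) (hη0 : 0 < η) (hη1 : η ≤ 1 / 4) : ∃ K : ℝ, ∃ N0 : ℕ, ∀ N : ℕ, N0 ≤ N → ∀ t : ℝ, 0 < t →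
    (N:ℝ) ^ 2 * (1 - Gy (Yn N) (t * (1 + 2 * η))) - K * ((N:ℝ) ^ 2 / Real.log N) ≤ cU N t ∧
      cU N t ≤ (N:ℝ) ^ 2 * (1 - Gy (Yn N) (t * (1 - 2 * η))) + K * ((N:ℝ) ^ 2 / Real.log N) := by
  obtain ⟨K, N0, h⟩ := approx η hη0 (by linarith)
  refine ⟨K + 1, N0 + 2, fun N hN t ht => ?_⟩
  obtain ⟨Ex, hEx, hap⟩ := h N (by omega)
  have hQ := Q_small N (by omega)
  have hN1 : (1:ℝ) < N := by exact_mod_cast (by omega : 1 < N)
  have hL : 0 < Real.log N := Real.log_pos hN1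
  have hNe : ((N ^ 2 : ℕ) : ℝ) = (N:ℝ) ^ 2 := by push_cast; ring
  set R := (N:ℝ) / (2 * Real.log N) with hR
  have hR0 : 0 < R := by positivity
  constructor
  · have h1 := cntT' (N ^ 2) (Yn N) (t * (1 + 2 * η))
    rw [hNe] at h1
    have h2 := cmp (N ^ 2) Ex (fun a : ℕ => t * (1 + 2 * η) < T (-4 * (a:ℤ)) (Yn N))
      (fun a : ℕ => t * (N / (2 * Real.log N)) ≤ (P a N : ℝ)) (fun a ha hE h3 => by
        have h4 := (abs_le.1 (hap a ha hE)).1
        have h5 : t * (1 + 2 * η) < T (-4 * (a:ℤ)) (Yn N) := h3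
        show t * R ≤ (P a N : ℝ)
        have h6 : (1 - η) * (T (-4 * (a:ℤ)) (Yn N) * R) ≤ P a N := by linarith
        refine le_trans ?_ h6
        have h7 : (1 - η) * (t * (1 + 2 * η) * R) ≤ (1 - η) * (T (-4 * (a:ℤ)) (Yn N) * R) := by
          apply mul_le_mul_of_nonneg_left _ (by linarith)
          exact mul_le_mul_of_nonneg_right h5.le hR0.le
        refine le_trans ?_ h7
        have h8 : (1 - η) * (t * (1 + 2 * η) * R) = (t * R) * (1 + η * (1 - 2 * η)) := by ring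
        rw [h8]
        have h9 : 0 < t * R := mul_pos ht hR0
        have h10 : 0 ≤ η * (1 - 2 * η) := mul_nonneg hη0.le (by linarith)
        nlinarith)
    have h3 := (abs_le.1 h1).1
    unfold cU
    linarith
  · have h1 := cntT' (N ^ 2) (Yn N) (t * (1 - 2 * η))
    rw [hNe] at h1
    have h2 := cmp (N ^ 2) Ex (fun a : ℕ => t * (N / (2 * Real.log N)) ≤ (P a N : ℝ))
      (fun a : ℕ => t * (1 - 2 * η) < T (-4 * (a:ℤ)) (Yn N)) (fun a ha hE h3 => by
        have h4 := (abs_le.1 (hap a ha hE)).2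
        have h5 : t * R ≤ (P a N : ℝ) := h3
        show t * (1 - 2 * η) < T (-4 * (a:ℤ)) (Yn N)
        have h6 : t * R ≤ (1 + η) * T (-4 * (a:ℤ)) (Yn N) * R := by linarith
        have h7 : t ≤ (1 + η) * T (-4 * (a:ℤ)) (Yn N) := le_of_mul_le_mul_right h6 hR0
        have h8 : (1 + η) * (t * (1 - 2 * η)) < t := by
          have : (1 + η) * (t * (1 - 2 * η)) = t - t * (η + 2 * η ^ 2) := by ring
          rw [this]
          have : 0 < t * (η + 2 * η ^ 2) := by positivity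
          linarith
        exact lt_of_mul_lt_mul_left (h8.trans_le h7) (by linarith))
    have h3 := (abs_le.1 h1).2
    unfold cU
    linarith

theorem hcD (η : ℝ) (hη0 : 0 < η) (hη1 : η ≤ 1 / 4) : ∃ K : ℝ, ∃ N0 : ℕ, ∀ N : ℕ, N0 ≤ N → ∀ t : ℝ, 0 < t →
    (N:ℝ) ^ 2 * (Gy (Yn N) (1 / (t * (1 + 2 * η)))) - K * ((N:ℝ) ^ 2 / Real.log N) ≤ cD N t ∧
      cD N t ≤ (N:ℝ) ^ 2 * (Gy (Yn N) (1 / (t * (1 - 2 * η)))) + K * ((N:ℝ) ^ 2 / Real.log N) := by
  obtain ⟨K, N0, h⟩ := approx η hη0 (by linarith)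
  refine ⟨K + 1, N0 + 2, fun N hN t ht => ?_⟩
  obtain ⟨Ex, hEx, hap⟩ := h N (by omega)
  have hQ := Q_small N (by omega)
  have hN1 : (1:ℝ) < N := by exact_mod_cast (by omega : 1 < N)
  have hL : 0 < Real.log N := Real.log_pos hN1
  have hNe : ((N ^ 2 : ℕ) : ℝ) = (N:ℝ) ^ 2 := by push_cast; ring
  set R := (N:ℝ) / (2 * Real.log N) with hR
  have hR0 : 0 < R := by positivity
  constructor
  · have h1 := cntT (N ^ 2) (Yn N) (1 / (t * (1 + 2 * η)))
    rw [hNe] at h1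
    have h2 := cmp (N ^ 2) Ex (fun a : ℕ => T (-4 * (a:ℤ)) (Yn N) ≤ 1 / (t * (1 + 2 * η)))
      (fun a : ℕ => (P a N : ℝ) ≤ 1 / t * (N / (2 * Real.log N))) (fun a ha hE h3 => by
        have h4 := (abs_le.1 (hap a ha hE)).2
        have h5 : T (-4 * (a:ℤ)) (Yn N) ≤ 1 / (t * (1 + 2 * η)) := h3
        show (P a N : ℝ) ≤ 1 / t * R
        have h6 : (P a N : ℝ) ≤ (1 + η) * (T (-4 * (a:ℤ)) (Yn N) * R) := by linarith
        refine h6.trans ?_
        have h7 : (1 + η) * (T (-4 * (a:ℤ)) (Yn N) * R) ≤ (1 + η) * (1 / (t * (1 + 2 * η)) * R) := by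
          apply mul_le_mul_of_nonneg_left _ (by linarith)
          exact mul_le_mul_of_nonneg_right h5 hR0.le
        refine h7.trans ?_
        have h8 : (1 + η) * (1 / (t * (1 + 2 * η)) * R) = 1 / t * R * ((1 + η) / (1 + 2 * η)) := by
          field_simp
        rw [h8]
        have h9 : (1 + η) / (1 + 2 * η) ≤ 1 := by
          rw [div_le_one (by linarith)]; linarith
        have h10 : 0 < 1 / t * R := by positivity
        nlinarith)
    have h3 := (abs_le.1 h1).1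
    unfold cD
    linarith
  · have h1 := cntT (N ^ 2) (Yn N) (1 / (t * (1 - 2 * η)))
    rw [hNe] at h1
    have h2 := cmp (N ^ 2) Ex (fun a : ℕ => (P a N : ℝ) ≤ 1 / t * (N / (2 * Real.log N)))
      (fun a : ℕ => T (-4 * (a:ℤ)) (Yn N) ≤ 1 / (t * (1 - 2 * η))) (fun a ha hE h3 => by
        have h4 := (abs_le.1 (hap a ha hE)).1
        have h5 : (P a N : ℝ) ≤ 1 / t * R := h3
        show T (-4 * (a:ℤ)) (Yn N) ≤ 1 / (t * (1 - 2 * η))
        have h6 : (1 - η) * T (-4 * (a:ℤ)) (Yn N) * R ≤ 1 / t * R := by linarith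
        have h7 : (1 - η) * T (-4 * (a:ℤ)) (Yn N) ≤ 1 / t := le_of_mul_le_mul_right h6 hR0
        have hT := T_posj (-4 * (a:ℤ)) (Yn N)
        rw [le_div_iff₀ (by apply mul_pos ht; linarith)]
        rw [le_div_iff₀ ht] at h7
        have h8 : 0 < T (-4 * (a:ℤ)) (Yn N) * t := mul_pos hT ht
        nlinarith)
    have h3 := (abs_le.1 h1).2
    unfold cD
    linarith

/-- the statement -/
def E1 : Prop := ∃ C2 : ℝ, 0 < C2 ∧
    Tendsto (fun y : ℕ => ∏ p ∈ PP y, (1 - 1 / ((p : ℝ) - 1) ^ 2)) atTop (𝓝 C2) ∧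
    ∀ δ : ℝ, 0 < δ → ∃ t0 : ℝ, ∃ N0 : ℕ, ∀ N : ℕ, N0 ≤ N → ∀ t : ℝ, t0 ≤ t →
      (t ≤ (eg / 2 - δ) * Real.log (Real.log (Real.log N)) →
        (N:ℝ) ^ 2 * Real.exp (-Real.exp ((2 / eg + δ) * t)) ≤ cU N t ∧
        cU N t ≤ (N:ℝ) ^ 2 * Real.exp (-Real.exp ((2 / eg - δ) * t))) ∧
      (t ≤ (eg / (2 * C2) - δ) * Real.log (Real.log (Real.log N)) →
        (N:ℝ) ^ 2 * Real.exp (-Real.exp ((2 * C2 / eg + δ) * t)) ≤ cD N t ∧
        cD N t ≤ (N:ℝ) ^ 2 * Real.exp (-Real.exp ((2 * C2 / eg - δ) * t)))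

theorem e1 : E1 := by
  obtain ⟨-, C2, hC2, hC, hlim⟩ := m0
  have heg : 0 < eg := Real.exp_pos _
  refine ⟨C2, hC2, hC, fun δ hδ => ?_⟩
  obtain ⟨t1, N1, k1⟩ := ld (A := 2 / eg) (by positivity) (fun y t => 1 - Gy y t) (u1 b2) h2 cU hcU δ hδ
  obtain ⟨t2, N2, k2⟩ := ld (A := 2 * C2 / eg) (by positivity) (fun y t => Gy y (1 / t)) (u3 b2 C2 hC2 hlim)
    (h4 C2 hC2 hlim) cD hcD δ hδ
  refine ⟨max t1 t2, N1 + N2, fun N hN t ht => ⟨fun h => ?_, fun h => ?_⟩⟩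
  · exact k1 N (by omega) t ((le_max_left _ _).trans ht) (by rw [one_div_div]; exact h)
  · exact k2 N (by omega) t ((le_max_right _ _).trans ht) (by rw [one_div_div]; exact h)

end Pool.Agent.Run7.h870.LE
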