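import Pool.Agent.Run7.h870.LE.Pre
import Pool.Agent.R460.SC.Fb
import Pool.Agent.R460.SC.Cl

/-!
# LE/App: the prime counts of `n² + a` and the truncated products up to `(log N) / 2` (helper870)
-/

set_option autoImplicit false

namespace Pool.Agent.Run7.h870.LE

open Finset Filter Topology Classical
open Pool.Agent.N511.LL
open Pool.Agent.Run7.h870.LJ
open Pool.Agent.W468.ConjF (SJ PJ)
open Pool.Agent.R460.SB (Sz fv)
open Pool.Agent.R460.SC (GoodT)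

lemma Fd_ge (y : ℕ) (hy : 2 ≤ y) : 1 / ((y:ℝ) - 1) ≤ Fd y := by
  induction y, hy using Nat.le_induction with
  | base =>
    have : PP 2 = ∅ := by decide
    unfold Fd
    rw [this]
    norm_num
  | succ y hy ih =>
    have hy2 : (2:ℝ) ≤ y := by exact_mod_cast hy
    have e0 : ((y + 1 : ℕ):ℝ) - 1 = y := by push_cast; ring
    rw [e0]
    by_cases hp : (y + 1).Prime
    · have e1 : PP (y + 1) = insert (y + 1) (PP y) := by
        ext p
        rw [mem_insert, mem_PP, mem_PP]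
        constructor
        · rintro ⟨⟨h1, h2⟩, h3⟩
          by_cases h4 : p = y + 1
          · exact Or.inl h4
          · exact Or.inr ⟨⟨h1, by omega⟩, h3⟩
        · rintro (h1 | ⟨⟨h1, h2⟩, h3⟩)
          · rw [h1]; exact ⟨⟨by omega, le_rfl⟩, hp⟩
          · exact ⟨⟨h1, by omega⟩, h3⟩
      have e2 : Fd (y + 1) = (1 - 1 / (y:ℝ)) * Fd y := by
        unfold Fd
        rw [e1, prod_insert (by rw [mem_PP]; omega), e0]
      rw [e2]
      have e3 : 1 / (y:ℝ) = (1 - 1 / (y:ℝ)) * (1 / ((y:ℝ) - 1)) := by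
        have : (y:ℝ) - 1 ≠ 0 := by linarith
        field_simp
      have e4 : 1 / (y:ℝ) ≤ 1 := by rw [div_le_one (by linarith)]; linarith
      calc 1 / (y:ℝ) = (1 - 1 / (y:ℝ)) * (1 / ((y:ℝ) - 1)) := e3
        _ ≤ (1 - 1 / (y:ℝ)) * Fd y := mul_le_mul_of_nonneg_left ih (by linarith)
    · have e1 : PP (y + 1) = PP y := by
        ext p
        rw [mem_PP, mem_PP]
        constructor
        · rintro ⟨⟨h1, h2⟩, h3⟩
          have : p ≠ y + 1 := fun h => hp (h ▸ h3)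
          exact ⟨⟨h1, by omega⟩, h3⟩
        · rintro ⟨⟨h1, h2⟩, h3⟩
          exact ⟨⟨h1, by omega⟩, h3⟩
      have e2 : Fd (y + 1) = Fd y := by unfold Fd; rw [e1]
      rw [e2]
      refine le_trans ?_ ih
      exact one_div_le_one_div_of_le (by linarith) (by linarith)

lemma T_ge (d : ℤ) (y : ℕ) (hy : 2 ≤ y) : 1 / (y:ℝ) ≤ T d y := by
  have hy2 : (2:ℝ) ≤ y := by exact_mod_cast hy
  have h1 : Fd y ≤ T d y := by
    unfold Fd T
    refine prod_le_prod (fun p hp => ?_) fun p hp => (loc_bd d (mem_PP.1 hp).1.1).2.2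
    obtain ⟨h1, h2⟩ := u_bd (mem_PP.1 hp).1.1
    linarith
  refine le_trans ?_ ((Fd_ge y hy).trans h1)
  exact one_div_le_one_div_of_le (by linarith) (by linarith)

lemma three_prod {e m l s : ℝ} (he0 : 0 < e) (he1 : e ≤ 1 / 10) (hm : |m - 1| ≤ 4 * e) (hl : |l - 1| ≤ e)
    (hs : |s - 1| ≤ e) : |m * l * s - 1| ≤ 8 * e := by
  rw [abs_le] at hm hl hs ⊢
  obtain ⟨m1, m2⟩ := hm
  obtain ⟨l1, l2⟩ := hl
  obtain ⟨s1, s2⟩ := hs
  have hm0 : 0 ≤ m := by linarith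
  have hl0 : 0 ≤ l := by linarith
  have hs0 : 0 ≤ s := by linarith
  have u1 : m * l * s ≤ (1 + 4 * e) * (1 + e) * (1 + e) := by
    have a1 : m * l ≤ (1 + 4 * e) * (1 + e) := mul_le_mul (by linarith) (by linarith) hl0 (by linarith)
    exact mul_le_mul a1 (by linarith) hs0 (by positivity)
  have u2 : (1 - 4 * e) * (1 - e) * (1 - e) ≤ m * l * s := by
    have a1 : (1 - 4 * e) * (1 - e) ≤ m * l := mul_le_mul (by linarith) (by linarith) (by linarith) hm0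
    exact mul_le_mul a1 (by linarith) (by linarith) (by positivity)
  constructor
  · nlinarith [mul_pos he0 he0, mul_pos (mul_pos he0 he0) he0]
  · nlinarith [mul_pos he0 he0, mul_pos (mul_pos he0 he0) he0]

lemma fv_eq (a m : ℕ) : (fv (-1) (-0) (a:ℤ) m).toNat = m ^ 2 + a := by
  have : fv (-1) (-0) (a:ℤ) m = ((m ^ 2 + a : ℕ):ℤ) := by
    unfold Pool.Agent.R460.SB.fv
    push_cast
    ring
  rw [this, Int.toNat_natCast]

lemma fv_eq' (a m : ℕ) : ((fv (-1) (-0) (a:ℤ) m : ℤ) : ℝ) = (m:ℝ) ^ 2 + a := by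
  unfold Pool.Agent.R460.SB.fv
  push_cast
  ring

lemma Sz_T (a z : ℕ) : Sz (-1) (-0) (a:ℤ) z = T (-4 * (a:ℤ)) z := by
  rw [← hprod_eq, neg_zero, Pool.Agent.R460.SB.Sz_leg]
  rfl

/-- one value of `a` -/
lemma one_a {e : ℝ} (he0 : 0 < e) (he1 : e ≤ 1 / 10) {N a y z : ℕ} (ha1 : 1 ≤ a) (hN : 2 ≤ N) (hy : 2 ≤ y)
    (hyz : y ≤ z) (hyL : (y:ℝ) ≤ Real.log N) (hz : 10 / e ≤ z) (hL : 1 / e ≤ Real.log N)
    (hsum : |∑ m ∈ Icc 1 N, 1 / Real.log ((m:ℝ) ^ 2 + a) - N / (2 * Real.log N)| ≤ e * (N / (2 * Real.log N)))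
    (hgood : GoodT 1 0 3 (N ^ 2) (a:ℤ)) (hsq : ¬ IsSquare ((0:ℤ) ^ 2 - 4 * 1 * (a:ℤ)))
    {δ : ℝ} (hδ0 : 0 ≤ δ) (hδ1 : δ ≤ e / 4) (hz20 : 20 / e ≤ z)
    (htail : ∀ᶠ M in atTop, |SJ ((0:ℤ) ^ 2 - 4 * 1 * (a:ℤ)) z M| ≤ δ)
    (hmid : |∏ p ∈ PR 1 y z, loc (-4 * (a:ℤ)) p - 1| ≤ 4 * e) :
    |(P a N : ℝ) - T (-4 * (a:ℤ)) y * (N / (2 * Real.log N))| ≤ 9 * e * (T (-4 * (a:ℤ)) y * (N / (2 * Real.log N))) := by
  have hz2 : 2 ≤ z := hy.trans hyz
  have hz0 : (0:ℝ) < z := by exact_mod_cast (by omega : 0 < z)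
  have hN0 : (0:ℝ) < N := by exact_mod_cast (by omega : 0 < N)
  have hy0 : (0:ℝ) < y := by exact_mod_cast (by omega : 0 < y)
  have hL0 : 0 < Real.log N := by
    have : 0 < 1 / e := by positivity
    linarith
  have h5z : 5 / (z:ℝ) ≤ e / 4 := by
    rw [div_le_iff₀ hz0]
    rw [div_le_iff₀ he0] at hz20
    linarith
  obtain ⟨ℓ, hℓ0, hℓ, hℓ1⟩ := Pool.Agent.R460.SC.PJ_lim hsq hz2 hδ0 (by linarith) htail
  have hℓ2 : |ℓ - 1| ≤ e := by linarith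
  obtain ⟨-, S, hS, hcount⟩ := hgood
  have hSe : S = T (-4 * (a:ℤ)) z * ℓ := by
    refine tendsto_nhds_unique hS ?_
    have h1 := hℓ.const_mul (Sz (-1) (-0) (a:ℤ) z)
    rw [Sz_T] at h1
    refine h1.congr' ?_
    filter_upwards [eventually_ge_atTop z] with M hM
    rw [Pool.Agent.R460.SC.Sz_split (a := 1) (b := 0) (c := (a:ℤ)) (by norm_num) hz2 (by omega) hM, Sz_T]
  have hTz : T (-4 * (a:ℤ)) z = T (-4 * (a:ℤ)) y * ∏ p ∈ PR 1 y z, loc (-4 * (a:ℤ)) p :=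
    F0aux.PP_split hy hyz _
  have hc := hcount N le_rfl
  have e1 : (((Icc 1 N).filter (fun t : ℕ => (fv (-1) (-0) (a:ℤ) t).toNat.Prime)).card : ℝ) = P a N := by
    unfold P
    congr 2
    refine filter_congr fun m _ => ?_
    rw [fv_eq]
  have e2 : ∑ t ∈ Icc 1 N, 1 / Real.log ((fv (-1) (-0) (a:ℤ) t : ℤ) : ℝ) = ∑ m ∈ Icc 1 N, 1 / Real.log ((m:ℝ) ^ 2 + a) :=
    sum_congr rfl fun m _ => by rw [fv_eq']
  rw [e1, e2] at hc
  have e3 : Real.sqrt ((N ^ 2 : ℕ) : ℝ) = N := by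
    push_cast
    exact Real.sqrt_sq hN0.le
  have e4 : Real.log ((N ^ 2 : ℕ) : ℝ) = 2 * Real.log N := by
    push_cast
    rw [Real.log_pow]
    norm_num
  rw [e3, e4] at hc
  set Ty := T (-4 * (a:ℤ)) y with hTy
  set m := ∏ p ∈ PR 1 y z, loc (-4 * (a:ℤ)) p with hm
  set W := (N:ℝ) / (2 * Real.log N) with hW
  set Sg := ∑ m ∈ Icc 1 N, 1 / Real.log ((m:ℝ) ^ 2 + a) with hSg
  have hW0 : 0 < W := by positivity
  have hTy0 : 0 < Ty := T_posj _ _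
  have hTy1 : 1 / (y:ℝ) ≤ Ty := T_ge _ _ hy
  have hTy2 : 1 / Real.log N ≤ Ty := le_trans (one_div_le_one_div_of_le hy0 hyL) hTy1
  have hs : |Sg / W - 1| ≤ e := by
    have : Sg / W - 1 = (Sg - W) / W := by field_simp
    rw [this, abs_div, abs_of_pos hW0, div_le_iff₀ hW0]
    exact hsum
  have h8 := three_prod he0 he1 hmid hℓ2 hs
  have h9 : S * Sg - Ty * W = (Ty * W) * (m * ℓ * (Sg / W) - 1) := by
    rw [hSe, hTz]
    field_simp
  have h10 : |S * Sg - Ty * W| ≤ 8 * e * (Ty * W) := by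
    rw [h9, abs_mul, abs_of_pos (mul_pos hTy0 hW0)]
    have := mul_le_mul_of_nonneg_left h8 (mul_pos hTy0 hW0).le
    linarith
  have h11 : (N:ℝ) / (2 * Real.log N) ^ 3 ≤ e * (Ty * W) := by
    have a1 : e * (1 / Real.log N * W) ≤ e * (Ty * W) := by gcongr
    refine le_trans ?_ a1
    rw [hW]
    have a2 : e * (1 / Real.log N * (N / (2 * Real.log N))) = N / (2 * Real.log N) ^ 3 * (4 * (e * Real.log N)) := by
      field_simp
      ring
    rw [a2]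
    have a3 : 1 ≤ e * Real.log N := by
      rw [div_le_iff₀ he0] at hL
      linarith
    have a4 : 0 ≤ (N:ℝ) / (2 * Real.log N) ^ 3 := by positivity
    nlinarith
  have h12 : (P a N : ℝ) - Ty * W = ((P a N : ℝ) - S * Sg) + (S * Sg - Ty * W) := by ring
  rw [h12]
  refine (abs_add_le _ _).trans ?_
  linarith

lemma card_int (M : ℕ) (p : ℤ → Prop) : #((Icc 1 M).filter (fun a : ℕ => p (a:ℤ))) ≤ #((Icc 1 (M:ℤ)).filter p) := by
  refine card_le_card_of_injOn (fun a : ℕ => (a:ℤ)) ?_ ?_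
  · intro a ha
    rw [mem_coe, mem_filter, mem_Icc] at ha
    rw [mem_coe, mem_filter, mem_Icc]
    refine ⟨⟨?_, ?_⟩, ha.2⟩
    · show (1:ℤ) ≤ (a:ℤ)
      exact_mod_cast ha.1.1
    · show (a:ℤ) ≤ (M:ℤ)
      exact_mod_cast ha.1.2
  · intro a _ b _ h
    exact Nat.cast_injective h

theorem approx (η : ℝ) (hη0 : 0 < η) (hη1 : η ≤ 1) : ∃ K : ℝ, ∃ N0 : ℕ, ∀ N : ℕ, N0 ≤ N → ∃ Ex : Finset ℕ,
    (#Ex : ℝ) ≤ K * ((N:ℝ) ^ 2 / Real.log N) ∧ ∀ a ∈ Icc 1 (N ^ 2), a ∉ Ex →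
      |(P a N : ℝ) - T (-4 * (a:ℤ)) (Yn N) * (N / (2 * Real.log N))| ≤
        η * (T (-4 * (a:ℤ)) (Yn N) * (N / (2 * Real.log N))) := by
  obtain ⟨e, hee⟩ : ∃ e : ℝ, e = η / 10 := ⟨_, rfl⟩
  have he0 : 0 < e := by rw [hee]; positivity
  have he1 : e ≤ 1 / 10 := by rw [hee]; linarith
  obtain ⟨N1, h1⟩ := Pool.Agent.R460.SC.fin_true (a := 1) (b := 0) one_pos (1 / 4) (by norm_num) 2 3 1
  obtain ⟨N2, h2⟩ := Pool.Agent.R460.SC.tail_class 1 one_pos 0 (1 / 4) (by norm_num) 2 14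
  obtain ⟨N3, h3⟩ := sum_log e he0
  have hx : Tendsto (fun N : ℕ => 2 * Real.log (N:ℝ)) atTop atTop := log_tend.const_mul_atTop (by norm_num)
  obtain ⟨N4, h4⟩ := eventually_atTop.1 ((hx.eventually ((Real.tendsto_exp_div_pow_atTop 29).eventually_ge_atTop 1)).and
    ((log_tend.eventually_ge_atTop (40 / e)).and (eventually_ge_atTop 2)))
  refine ⟨8 / e ^ 2 + 2, N1 + N2 + N3 + N4, fun N hN => ?_⟩
  obtain ⟨f1, f2, f3⟩ := h4 N (by omega)
  set L := Real.log (N:ℝ) with hL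
  have hNr : (2:ℝ) ≤ N := by exact_mod_cast f3
  have hNN : N ≤ N ^ 2 := by nlinarith
  have h40 : 400 ≤ L := by
    refine le_trans ?_ f2
    rw [le_div_iff₀ he0]
    linarith
  have hL0 : 0 < L := by linarith
  have hNe : ((N ^ 2 : ℕ) : ℝ) = (N:ℝ) ^ 2 := by push_cast; ring
  have hLN : Real.log ((N ^ 2 : ℕ) : ℝ) = 2 * L := by
    rw [hNe, Real.log_pow]
    norm_num
    try rfl
  have hexp : Real.exp (2 * L) = (N:ℝ) ^ 2 := by
    rw [two_mul, Real.exp_add, hL, Real.exp_log (by linarith)]; ring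
  rw [le_div_iff₀ (by positivity), one_mul, hexp] at f1
  obtain ⟨y, hy⟩ : ∃ y, y = Yn N := ⟨_, rfl⟩
  obtain ⟨z, hz⟩ : ∃ z, z = ⌈(2 * L) ^ 13⌉₊ := ⟨_, rfl⟩
  have hy1 : (y:ℝ) ≤ L / 2 := by rw [hy]; exact Nat.floor_le (by positivity)
  have hy2 : L / 4 ≤ y := by
    have := Nat.lt_floor_add_one (L / 2)
    have e1 : ((⌊L / 2⌋₊ : ℕ) : ℝ) = y := by rw [hy]; rfl
    rw [e1] at this
    linarith
  have hy3 : 2 ≤ y := by
    have : (2:ℝ) ≤ y := by linarith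
    exact_mod_cast this
  have hy0 : (0:ℝ) < y := by linarith
  have hzlo : (2 * L) ^ 13 ≤ z := by rw [hz]; exact Nat.le_ceil _
  have h2L : (2 * L) ≤ (2 * L) ^ 13 := le_self_pow₀ (by linarith) (by norm_num)
  have hzhi : (z:ℝ) ≤ (2 * L) ^ 14 := by
    have := Nat.ceil_lt_add_one (show 0 ≤ (2 * L) ^ 13 by positivity)
    rw [← hz] at this
    have e1 : (2 * L) ^ 14 = (2 * L) ^ 13 * (2 * L) := by ring
    rw [e1]
    nlinarith
  have hyz : y ≤ z := by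
    have : (y:ℝ) ≤ z := by linarith
    exact_mod_cast this
  have h40e : 40 / e ≤ z := by linarith
  have hee0 : 0 < 1 / e := by positivity
  have e40 : 40 / e = 40 * (1 / e) := by ring
  have e20 : 20 / e = 20 * (1 / e) := by ring
  have e10 : 10 / e = 10 * (1 / e) := by ring
  have hδ1 : 1 / (2 * L) ^ 2 ≤ e / 4 := by
    rw [div_le_iff₀ (by positivity)]
    rw [div_le_iff₀ he0] at f2
    nlinarith
  -- the three exceptional sets
  have g1 := h1 (N ^ 2) (by omega) 1 le_rfl (by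
      rw [Nat.cast_one]
      refine Real.one_le_rpow ?_ (by norm_num)
      rw [hNe]; nlinarith) (by
      rw [hLN, Nat.divisors_one, card_singleton, Nat.cast_one, pow_one]
      linarith) 0 (by
      rw [hLN, pow_one]
      norm_num
      linarith)
  obtain ⟨E2, g2, g3⟩ := h2 (N ^ 2) (by omega) z (by rw [hLN]; exact hzlo) (by rw [hLN]; exact hzhi) 1 le_rfl (by
      rw [Nat.cast_one]
      refine Real.one_le_rpow ?_ (by norm_num)
      rw [hNe]; nlinarith) 0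
  rw [hLN, hNe] at g1 g2
  have g4 := mid he0 (by linarith : 4 * e ≤ 1) (y := y) (z := z) (M := N ^ 2) hy3 (by
      rw [div_le_iff₀ hy0]
      rw [div_le_iff₀ he0] at f2
      nlinarith) (by
      rw [hNe]
      refine le_trans ?_ f1
      have a1 : (z:ℝ) ^ 2 ≤ ((2 * L) ^ 14) ^ 2 := pow_le_pow_left₀ (by positivity) hzhi 2
      have a2 : (z:ℝ) ^ 2 * y ≤ ((2 * L) ^ 14) ^ 2 * (2 * L) := mul_le_mul a1 (by linarith) hy0.le (by positivity)
      refine a2.trans (le_of_eq (by ring)))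
  rw [hNe] at g4
  set B1 := (Icc 1 (N ^ 2)).filter (fun a : ℕ => (a:ℤ) ≡ 0 [ZMOD ((1:ℕ):ℤ)] ∧ ¬ GoodT 1 0 3 (N ^ 2) (a:ℤ)) with hB1
  set B2' := (Icc 1 (N ^ 2)).filter (fun a : ℕ => (a:ℤ) ∈ E2) with hB2
  set B3 := (Icc 1 (N ^ 2)).filter (fun a : ℕ => 4 * e < |∏ p ∈ PR 1 y z, loc (-4 * (a:ℤ)) p - 1|) with hB3
  have c1 : (#B1 : ℝ) ≤ (N:ℝ) ^ 2 / L := by
    have a1 : (#B1 : ℝ) ≤ (#((Icc 1 ((N ^ 2 : ℕ) : ℤ)).filter (fun c : ℤ => c ≡ 0 [ZMOD ((1:ℕ):ℤ)] ∧ ¬ GoodT 1 0 3 (N ^ 2) c)) : ℝ) := by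
      refine Nat.cast_le.2 ?_
      rw [hB1]
      convert card_int (N ^ 2) (fun c : ℤ => c ≡ 0 [ZMOD ((1:ℕ):ℤ)] ∧ ¬ GoodT 1 0 3 (N ^ 2) c)
    refine (a1.trans g1).trans ?_
    rw [Nat.cast_one, one_mul]
    refine div_le_div_of_nonneg_left (by positivity) hL0 ?_
    nlinarith
  have c2 : (#B2' : ℝ) ≤ (N:ℝ) ^ 2 / L := by
    have a1 : #B2' ≤ #E2 := by
      refine card_le_card_of_injOn (fun a : ℕ => (a:ℤ)) ?_ ?_
      · intro a ha
        exact (mem_filter.1 (mem_coe.1 ha)).2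
      · intro a _ b _ h
        exact Nat.cast_injective h
    have a2 : (#B2' : ℝ) ≤ #E2 := by exact_mod_cast a1
    refine (a2.trans g2).trans ?_
    rw [Nat.cast_one, one_mul]
    refine div_le_div_of_nonneg_left (by positivity) hL0 ?_
    nlinarith
  have c3 : (#B3 : ℝ) ≤ 8 / e ^ 2 * ((N:ℝ) ^ 2 / L) := by
    refine g4.trans ?_
    have a1 : 2 * (N:ℝ) ^ 2 / (e ^ 2 * y) ≤ 2 * (N:ℝ) ^ 2 / (e ^ 2 * (L / 4)) := by gcongr
    refine a1.trans (le_of_eq ?_)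
    field_simp
    norm_num
  refine ⟨B1 ∪ (B2' ∪ B3), ?_, fun a ha hna => ?_⟩
  · have a1 : (#(B1 ∪ (B2' ∪ B3)) : ℝ) ≤ #B1 + (#B2' + #B3) := by
      have b1 := card_union_le B1 (B2' ∪ B3)
      have b2 := card_union_le B2' B3
      exact_mod_cast b1.trans (by omega)
    refine a1.trans ?_
    linarith
  · rw [mem_union, mem_union] at hna
    push Not at hna
    obtain ⟨n1, n2, n3⟩ := hna
    obtain ⟨ha1, ha2⟩ := mem_Icc.1 ha
    have hgood : GoodT 1 0 3 (N ^ 2) (a:ℤ) := by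
      by_contra hcon
      apply n1
      rw [hB1, mem_filter]
      refine ⟨ha, ?_, hcon⟩
      rw [Nat.cast_one]
      exact Int.modEq_one
    have hE : (a:ℤ) ∉ E2 := fun h => n2 (by rw [hB2, mem_filter]; exact ⟨ha, h⟩)
    have hmid : |∏ p ∈ PR 1 y z, loc (-4 * (a:ℤ)) p - 1| ≤ 4 * e := by
      by_contra hcon
      push Not at hcon
      exact n3 (by rw [hB3, mem_filter]; exact ⟨ha, hcon⟩)
    obtain ⟨k1, k2⟩ := g3 (a:ℤ) (by exact_mod_cast ha1) (by exact_mod_cast ha2) (by rw [Nat.cast_one]; exact Int.modEq_one) hE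
    rw [hLN] at k2
    have k3 := one_a he0 he1 (N := N) (a := a) (y := y) (z := z) ha1 f3 hy3 hyz (by linarith) (by linarith) (by linarith)
      (h3 N (by omega) a ha1 ha2) hgood k1 (δ := 1 / (2 * L) ^ 2) (by positivity) hδ1 (by linarith) k2 hmid
    rw [← hy]
    refine k3.trans ?_
    have : 0 < T (-4 * (a:ℤ)) y * (N / (2 * L)) := mul_pos (T_posj _ _) (by positivity)
    have : 9 * e ≤ η := by rw [hee]; linarith
    gcongr

end Pool.Agent.Run7.h870.LE
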