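import Mathlib

/-!
# LE/Ld: the large deviations from the tails of the truncated products, real analysis (helper870)
-/

set_option autoImplicit false

namespace Pool.Agent.Run7.h870.LE

open Filter Topology

/-- the cut `(log N) / 2` -/
noncomputable def Yn (N : ℕ) : ℕ := ⌊Real.log N / 2⌋₊

lemma log_tend : Tendsto (fun N : ℕ => Real.log (N : ℝ)) atTop atTop :=
  Real.tendsto_log_atTop.comp tendsto_natCast_atTop_atTop

lemma exp_diff {a b : ℝ} (ha : 0 < a) (hab : b < a) : ∃ t0 : ℝ, ∀ t : ℝ, t0 ≤ t →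
    Real.exp (b * t) + 1 ≤ Real.exp (a * t) := by
  obtain ⟨c, hc0, hbc, hca⟩ : ∃ c : ℝ, 0 < c ∧ b ≤ c ∧ c < a := by
    refine ⟨max b (a / 2), ?_, le_max_left _ _, ?_⟩
    · exact lt_of_lt_of_le (by linarith) (le_max_right _ _)
    · exact max_lt hab (by linarith)
  have h1 : Tendsto (fun t : ℝ => Real.exp ((a - c) * t)) atTop atTop :=
    Real.tendsto_exp_atTop.comp (tendsto_id.const_mul_atTop (by linarith))
  obtain ⟨t0, ht0⟩ := eventually_atTop.1 ((h1.eventually_ge_atTop 2).and (eventually_ge_atTop (0:ℝ)))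
  refine ⟨t0, fun t ht => ?_⟩
  obtain ⟨b1, b2⟩ := ht0 t ht
  have e1 : Real.exp (b * t) ≤ Real.exp (c * t) := Real.exp_le_exp.2 (mul_le_mul_of_nonneg_right hbc b2)
  have e2 : 1 ≤ Real.exp (c * t) := by rw [Real.one_le_exp_iff]; positivity
  have e3 : Real.exp (a * t) = Real.exp (c * t) * Real.exp ((a - c) * t) := by
    rw [← Real.exp_add]; congr 1; ring
  rw [e3]
  nlinarith

theorem ld {A : ℝ} (hA : 0 < A) (p : ℕ → ℝ → ℝ)
    (hlow : ∀ δ : ℝ, 0 < δ → ∃ t0 : ℝ, ∀ t : ℝ, t0 ≤ t → ∀ y : ℕ, Real.exp ((A + δ) * t) ≤ y →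
      Real.exp (-Real.exp ((A + δ) * t)) ≤ p y t)
    (hup : ∀ δ : ℝ, 0 < δ → ∃ t0 : ℝ, ∀ t : ℝ, t0 ≤ t → ∀ y : ℕ, p y t ≤ Real.exp (-Real.exp ((A - δ) * t)))
    (c : ℕ → ℝ → ℝ)
    (hc : ∀ η : ℝ, 0 < η → η ≤ 1 / 4 → ∃ K : ℝ, ∃ N0 : ℕ, ∀ N : ℕ, N0 ≤ N → ∀ t : ℝ, 0 < t →
      (N:ℝ) ^ 2 * p (Yn N) (t * (1 + 2 * η)) - K * ((N:ℝ) ^ 2 / Real.log N) ≤ c N t ∧
      c N t ≤ (N:ℝ) ^ 2 * p (Yn N) (t * (1 - 2 * η)) + K * ((N:ℝ) ^ 2 / Real.log N))
    (δ : ℝ) (hδ : 0 < δ) :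
    ∃ t0 : ℝ, ∃ N0 : ℕ, ∀ N : ℕ, N0 ≤ N → ∀ t : ℝ, t0 ≤ t →
      t ≤ (1 / A - δ) * Real.log (Real.log (Real.log N)) →
      (N:ℝ) ^ 2 * Real.exp (-Real.exp ((A + δ) * t)) ≤ c N t ∧
      c N t ≤ (N:ℝ) ^ 2 * Real.exp (-Real.exp ((A - δ) * t)) := by
  obtain ⟨θ, hθ0, hθδ, hθA, hθ2⟩ : ∃ θ : ℝ, 0 < θ ∧ θ ≤ δ ∧ θ ≤ A ∧ θ ≤ A ^ 2 * δ / 2 :=
    ⟨min δ (min A (A ^ 2 * δ / 2)), by positivity, min_le_left _ _, (min_le_right _ _).trans (min_le_left _ _),
      (min_le_right _ _).trans (min_le_right _ _)⟩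
  obtain ⟨κ, hκ0, hκ1, hκ2⟩ : ∃ κ : ℝ, 0 < κ ∧ κ ≤ 1 / 2 ∧ κ ≤ A * δ / 2 :=
    ⟨min (1 / 2) (A * δ / 2), by positivity, min_le_left _ _, min_le_right _ _⟩
  have hrange : (A + θ) * (1 / A - δ) ≤ 1 - κ := by
    have e1 : (A + θ) * (1 / A - δ) = 1 - A * δ + θ / A - θ * δ := by field_simp; ring
    have e2 : θ / A ≤ A * δ / 2 := by
      rw [div_le_iff₀ hA]; nlinarith
    have e3 : 0 < θ * δ := by positivity
    rw [e1]; linarith
  obtain ⟨η, hη0, hη1, hη2⟩ : ∃ η : ℝ, 0 < η ∧ η ≤ 1 / 4 ∧ (A + θ) * (2 * η) ≤ θ / 4 := by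
    refine ⟨min (1 / 4) (θ / (8 * (A + θ))), by positivity, min_le_left _ _, ?_⟩
    have h := min_le_right (1 / 4) (θ / (8 * (A + θ)))
    have hp : 0 < A + θ := by linarith
    calc (A + θ) * (2 * min (1 / 4) (θ / (8 * (A + θ)))) ≤ (A + θ) * (2 * (θ / (8 * (A + θ)))) := by gcongr
      _ = θ / 4 := by field_simp; ring
  obtain ⟨ta, hta⟩ := hlow (θ / 2) (by linarith)
  obtain ⟨tb, htb⟩ := hup (θ / 2) (by linarith)
  obtain ⟨tc, htc⟩ := exp_diff (a := A + θ) (b := A + 3 * θ / 4) (by linarith) (by linarith)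
  obtain ⟨td, htd⟩ := exp_diff (a := A - 3 * θ / 4) (b := A - θ) (by linarith) (by linarith)
  obtain ⟨K, Na, hNa⟩ := hc η hη0 hη1
  -- the size of `N`
  set K1 : ℝ := |K| + 1 with hK1
  have hK10 : 0 < K1 := by positivity
  have h1 : ∀ᶠ l : ℝ in atTop, l ^ (1 - κ) + Real.log (2 * K1) ≤ l := by
    have h2 : Tendsto (fun l : ℝ => l ^ κ) atTop atTop := tendsto_rpow_atTop hκ0
    filter_upwards [h2.eventually_ge_atTop 2, eventually_ge_atTop (2 * Real.log (2 * K1)), eventually_gt_atTop 0]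
      with l e1 e2 e3
    have e4 : l ^ (1 - κ) * l ^ κ = l := by rw [← Real.rpow_add e3]; simp
    have e5 : 0 < l ^ (1 - κ) := Real.rpow_pos_of_pos e3 _
    nlinarith
  have hll : Tendsto (fun N : ℕ => Real.log (Real.log (N:ℝ))) atTop atTop := Real.tendsto_log_atTop.comp log_tend
  have h3 : ∀ᶠ N : ℕ in atTop, Real.log (Real.log (N:ℝ)) + 1 ≤ Real.log (N:ℝ) / 2 := by
    have h4 : ∀ᶠ x : ℝ in atTop, Real.log x + 1 ≤ x / 2 := by
      have h5 := Real.isLittleO_log_id_atTop.def (show (0:ℝ) < 1 / 4 by norm_num)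
      filter_upwards [h5, eventually_ge_atTop 4] with x e1 e2
      rw [Real.norm_of_nonneg (Real.log_nonneg (by linarith)), id, Real.norm_of_nonneg (by linarith)] at e1
      linarith
    exact log_tend.eventually h4
  obtain ⟨Nb, hNb⟩ := eventually_atTop.1 ((hll.eventually h1).and (h3.and ((hll.eventually_ge_atTop 1).and
    (log_tend.eventually_ge_atTop 1))))
  refine ⟨max (max (2 * |ta|) (2 * |tb|)) (max (max tc td) 1), max Na Nb, fun N hN t ht htr => ?_⟩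
  obtain ⟨c1, c2, c3, c4⟩ := hNb N (le_trans (le_max_right _ _) hN)
  have ht1 : 1 ≤ t := (le_max_right _ _).trans ((le_max_right _ _).trans ht)
  have ht2 : 2 * |ta| ≤ t := (le_max_left _ _).trans ((le_max_left _ _).trans ht)
  have ht3 : 2 * |tb| ≤ t := (le_max_right _ _).trans ((le_max_left _ _).trans ht)
  have ht4 : tc ≤ t := (le_max_left _ _).trans ((le_max_left _ _).trans ((le_max_right _ _).trans ht))
  have ht5 : td ≤ t := (le_max_right _ _).trans ((le_max_left _ _).trans ((le_max_right _ _).trans ht))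
  have ht0 : 0 < t := by linarith
  obtain ⟨g1, g2⟩ := hNa N (le_trans (le_max_left _ _) hN) t ht0
  set l := Real.log (Real.log (N:ℝ)) with hl
  have hl0 : 0 < l := by linarith
  have hlogl : 0 ≤ Real.log l := Real.log_nonneg c3
  -- `v`
  set v := Real.exp ((A + θ) * t) with hv
  have hvl : v ≤ l ^ (1 - κ) := by
    rw [hv, Real.rpow_def_of_pos hl0, Real.exp_le_exp]
    calc (A + θ) * t ≤ (A + θ) * ((1 / A - δ) * Real.log l) := mul_le_mul_of_nonneg_left htr (by linarith)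
      _ = ((A + θ) * (1 / A - δ)) * Real.log l := by ring
      _ ≤ (1 - κ) * Real.log l := mul_le_mul_of_nonneg_right hrange hlogl
      _ = Real.log l * (1 - κ) := by ring
  have hlN : 0 < Real.log (N:ℝ) := by linarith
  have hel : Real.exp l = Real.log N := by rw [hl, Real.exp_log hlN]
  have hlp : 0 < l ^ (1 - κ) := Real.rpow_pos_of_pos hl0 _
  -- the error term
  have herr : K1 * (1 / Real.log N) ≤ Real.exp (-v) / 2 := by
    have e1 : 2 * K1 * Real.exp (-l) ≤ Real.exp (-v) := by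
      have e2 : 2 * K1 = Real.exp (Real.log (2 * K1)) := (Real.exp_log (by positivity)).symm
      rw [e2, ← Real.exp_add, Real.exp_le_exp]
      linarith
    have e3 : Real.exp (-l) = 1 / Real.log N := by rw [Real.exp_neg, hel, one_div]
    rw [e3] at e1
    linarith
  have hKK : K ≤ K1 := by rw [hK1]; linarith [le_abs_self K]
  have hKe : K * ((N:ℝ) ^ 2 / Real.log N) ≤ (N:ℝ) ^ 2 * (Real.exp (-v) / 2) := by
    have e1 : K * ((N:ℝ) ^ 2 / Real.log N) ≤ K1 * ((N:ℝ) ^ 2 / Real.log N) :=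
      mul_le_mul_of_nonneg_right hKK (by positivity)
    have e2 : K1 * ((N:ℝ) ^ 2 / Real.log N) = (N:ℝ) ^ 2 * (K1 * (1 / Real.log N)) := by ring
    rw [e2] at e1
    exact e1.trans (mul_le_mul_of_nonneg_left herr (by positivity))
  have hN20 : 0 ≤ (N:ℝ) ^ 2 := by positivity
  have hexp1 : Real.exp (-1) ≤ 1 / 2 := by
    have h := Real.add_one_le_exp (1:ℝ)
    rw [Real.exp_neg, ← one_div]
    exact one_div_le_one_div_of_le (by norm_num) (by linarith)
  constructor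
  · -- lower bound
    have d1 : (A + θ / 2) * (t * (1 + 2 * η)) ≤ (A + 3 * θ / 4) * t := by
      have e : (A + θ / 2) * (1 + 2 * η) ≤ A + 3 * θ / 4 := by
        have : (A + θ / 2) * (2 * η) ≤ (A + θ) * (2 * η) := by
          apply mul_le_mul_of_nonneg_right _ (by linarith); linarith
        nlinarith
      nlinarith
    have d2 : Real.exp ((A + θ / 2) * (t * (1 + 2 * η))) ≤ Real.exp ((A + 3 * θ / 4) * t) := Real.exp_le_exp.2 d1
    have d3 := htc t ht4
    rw [← hv] at d3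
    have hY : Real.exp ((A + θ / 2) * (t * (1 + 2 * η))) ≤ (Yn N : ℕ) := by
      have e1 : Real.log N / 2 - 1 < ⌊Real.log N / 2⌋₊ := Nat.sub_one_lt_floor _
      have e2 : l ^ (1 - κ) ≤ l := by
        calc l ^ (1 - κ) ≤ l ^ (1:ℝ) := Real.rpow_le_rpow_of_exponent_le c3 (by linarith)
          _ = l := Real.rpow_one l
      show Real.exp ((A + θ / 2) * (t * (1 + 2 * η))) ≤ (⌊Real.log N / 2⌋₊ : ℝ)
      linarith
    have hta2 : ta ≤ t * (1 + 2 * η) := by
      have := le_abs_self ta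
      have := abs_nonneg ta
      nlinarith
    have d4 := hta (t * (1 + 2 * η)) hta2 (Yn N) hY
    have d5 : Real.exp (-Real.exp ((A + 3 * θ / 4) * t)) ≤ p (Yn N) (t * (1 + 2 * η)) := by
      refine le_trans ?_ d4
      rw [Real.exp_le_exp]; linarith
    have d6 : Real.exp (-v) ≤ Real.exp (-Real.exp ((A + 3 * θ / 4) * t)) / 2 := by
      have e1 : Real.exp (-v) ≤ Real.exp (-Real.exp ((A + 3 * θ / 4) * t)) * Real.exp (-1) := by
        rw [← Real.exp_add, Real.exp_le_exp]; linarith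
      have e2 := mul_le_mul_of_nonneg_left hexp1 (Real.exp_pos (-Real.exp ((A + 3 * θ / 4) * t))).le
      linarith
    have d7 : (N:ℝ) ^ 2 * Real.exp (-Real.exp ((A + δ) * t)) ≤ (N:ℝ) ^ 2 * Real.exp (-v) := by
      apply mul_le_mul_of_nonneg_left _ hN20
      rw [Real.exp_le_exp, neg_le_neg_iff, hv, Real.exp_le_exp]
      exact mul_le_mul_of_nonneg_right (by linarith) ht0.le
    have d8 : (N:ℝ) ^ 2 * Real.exp (-Real.exp ((A + 3 * θ / 4) * t)) ≤ (N:ℝ) ^ 2 * p (Yn N) (t * (1 + 2 * η)) :=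
      mul_le_mul_of_nonneg_left d5 hN20
    have d9 : (N:ℝ) ^ 2 * Real.exp (-v) ≤ (N:ℝ) ^ 2 * (Real.exp (-Real.exp ((A + 3 * θ / 4) * t)) / 2) :=
      mul_le_mul_of_nonneg_left d6 hN20
    have d10 : 0 ≤ (N:ℝ) ^ 2 * Real.exp (-v) := by positivity
    linarith
  · -- upper bound
    have d1 : (A - 3 * θ / 4) * t ≤ (A - θ / 2) * (t * (1 - 2 * η)) := by
      have e : A - 3 * θ / 4 ≤ (A - θ / 2) * (1 - 2 * η) := by
        have : (A - θ / 2) * (2 * η) ≤ (A + θ) * (2 * η) := by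
          apply mul_le_mul_of_nonneg_right _ (by linarith); linarith
        nlinarith
      nlinarith
    have d2 : Real.exp ((A - 3 * θ / 4) * t) ≤ Real.exp ((A - θ / 2) * (t * (1 - 2 * η))) := Real.exp_le_exp.2 d1
    have d3 := htd t ht5
    have htb2 : tb ≤ t * (1 - 2 * η) := by
      have := le_abs_self tb
      have := abs_nonneg tb
      nlinarith
    have d4 := htb (t * (1 - 2 * η)) htb2 (Yn N)
    have d5 : p (Yn N) (t * (1 - 2 * η)) ≤ Real.exp (-Real.exp ((A - θ) * t)) * Real.exp (-1) := by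
      refine d4.trans ?_
      rw [← Real.exp_add, Real.exp_le_exp]; linarith
    have d6 : p (Yn N) (t * (1 - 2 * η)) ≤ Real.exp (-Real.exp ((A - θ) * t)) / 2 := by
      have e2 := mul_le_mul_of_nonneg_left hexp1 (Real.exp_pos (-Real.exp ((A - θ) * t))).le
      linarith
    have d7 : Real.exp (-v) ≤ Real.exp (-Real.exp ((A - θ) * t)) := by
      rw [Real.exp_le_exp, neg_le_neg_iff, hv, Real.exp_le_exp]
      exact mul_le_mul_of_nonneg_right (by linarith) ht0.le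
    have d8 : Real.exp (-Real.exp ((A - θ) * t)) ≤ Real.exp (-Real.exp ((A - δ) * t)) := by
      rw [Real.exp_le_exp, neg_le_neg_iff, Real.exp_le_exp]
      exact mul_le_mul_of_nonneg_right (by linarith) ht0.le
    have d9 := mul_le_mul_of_nonneg_left d6 hN20
    have d10 := mul_le_mul_of_nonneg_left d7 hN20
    have d11 := mul_le_mul_of_nonneg_left d8 hN20
    linarith

end Pool.Agent.Run7.h870.LE
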