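import Pool.Agent.Run7.h870.LJ.J

/-!
# LE/Low: the lower bounds of the tails, uniformly (helper870)
-/

set_option autoImplicit false

namespace Pool.Agent.Run7.h870.LE

open Finset Filter Topology Classical
open Pool.Agent.N511.LL
open Pool.Agent.Run7.h870.LJ

theorem real_low2 {c : ℝ} (hc : 0 < c) (F : ℕ → ℝ) (hF : Tendsto (fun z : ℕ => F z / Real.log z) atTop (𝓝 c))
    (δ : ℝ) (hδ : 0 < δ) :
    ∃ η : ℝ, 0 < η ∧ η ≤ 1 / 2 ∧ ∀ z0 : ℕ, ∃ t0 : ℝ, ∀ t : ℝ, t0 ≤ t → 0 < t ∧ ∃ z : ℕ, z0 ≤ z ∧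
      t < (1 - η) * F z ∧ Real.exp (-Real.exp ((1 / c + δ) * t)) ≤ 1 / (2 * 4 ^ z) ∧
      (z : ℝ) ≤ Real.exp ((1 / c + δ) * t) := by
  set a := 1 / c + δ / 2 with ha
  have ha0 : 0 < a := by rw [ha]; positivity
  set x := c * δ / 2 with hx
  have hx0 : 0 < x := by rw [hx]; positivity
  have hca : c * a = 1 + x := by rw [ha, hx]; field_simp
  obtain ⟨η, hη0, hη1, hη2⟩ : ∃ η : ℝ, 0 < η ∧ η ≤ 1 / 2 ∧ η ≤ x / (2 * (1 + x)) :=
    ⟨min (1 / 2) (x / (2 * (1 + x))), by positivity, min_le_left _ _, min_le_right _ _⟩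
  refine ⟨η, hη0, hη1, fun z0 => ?_⟩
  have h1 : Tendsto (fun t : ℝ => (1 - η) * (F (1 * ⌊Real.exp (a * t)⌋₊) / t)) atTop (𝓝 ((1 - η) * (1 + x))) := by
    rw [← hca]
    exact (lim_F ha0 F hF 1 le_rfl).const_mul _
  have h2 : 1 < (1 - η) * (1 + x) := by
    have : η * (1 + x) ≤ x / 2 := by
      have e := mul_le_mul_of_nonneg_right hη2 (show 0 ≤ 1 + x by positivity)
      have e2 : x / (2 * (1 + x)) * (1 + x) = x / 2 := by field_simp
      linarith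
    nlinarith
  have h3 : Tendsto (fun t : ℝ => ⌊Real.exp (a * t)⌋₊) atTop atTop := tendsto_nat_floor_atTop.comp (exp_at ha0)
  obtain ⟨t0, ht0⟩ := eventually_atTop.1 ((h1.eventually (lt_mem_nhds h2)).and
    ((eventually_gt_atTop (0:ℝ)).and ((h3.eventually_ge_atTop z0).and
    ((exp_at (show 0 < δ / 2 by linarith)).eventually_ge_atTop 3))))
  refine ⟨t0, fun t ht => ?_⟩
  obtain ⟨b1, b2, b3, b4⟩ := ht0 t ht
  refine ⟨b2, ⌊Real.exp (a * t)⌋₊, b3, ?_, ?_, ?_⟩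
  · rw [one_mul, mul_div_assoc', lt_div_iff₀ b2, one_mul] at b1
    exact b1
  · set z := ⌊Real.exp (a * t)⌋₊ with hz
    have hzl : (z:ℝ) ≤ Real.exp (a * t) := Nat.floor_le (Real.exp_pos _).le
    have e1 : (2:ℝ) * 4 ^ z ≤ Real.exp (1 + 2 * z) := by
      have h20 : (2:ℝ) ≤ Real.exp 1 := by
        have := Real.add_one_le_exp (1:ℝ)
        linarith
      have h4 : (4:ℝ) ≤ Real.exp 2 := by
        have e : Real.exp 2 = Real.exp 1 * Real.exp 1 := by rw [← Real.exp_add]; norm_num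
        rw [e]; nlinarith
      rw [Real.exp_add, mul_comm (2:ℝ) (z:ℝ), Real.exp_nat_mul]
      gcongr
    have e2 : 1 + 2 * (z:ℝ) ≤ Real.exp ((1 / c + δ) * t) := by
      have e3 : Real.exp ((1 / c + δ) * t) = Real.exp (a * t) * Real.exp (δ / 2 * t) := by
        rw [← Real.exp_add]; congr 1; rw [ha]; ring
      rw [e3]
      have h6 : 1 ≤ Real.exp (a * t) := by rw [Real.one_le_exp_iff]; positivity
      nlinarith
    rw [Real.exp_neg, ← one_div]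
    refine one_div_le_one_div_of_le (by positivity) (e1.trans ?_)
    rw [Real.exp_le_exp]
    exact e2
  · refine (Nat.floor_le (Real.exp_pos _).le).trans ?_
    rw [Real.exp_le_exp]
    refine mul_le_mul_of_nonneg_right ?_ b2.le
    rw [ha]; linarith


/-- lower bound of the upper tail -/
theorem u1 (hB : B2) : ∀ δ : ℝ, 0 < δ → ∃ t0 : ℝ, ∀ t : ℝ, t0 ≤ t → ∀ y : ℕ, Real.exp ((2 / eg + δ) * t) ≤ y →
    Real.exp (-Real.exp ((2 / eg + δ) * t)) ≤ 1 - Gy y t := by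
  intro δ hδ
  have heg : 0 < eg := Real.exp_pos _
  obtain ⟨η, hη0, hη1, hη2⟩ := real_low2 (c := eg / 2) (by positivity) Fu Fu_lim δ hδ
  rw [one_div_div] at hη2
  obtain ⟨z0, hz02, hz0⟩ := low hB hη0 hη1
  obtain ⟨t0, ht0⟩ := hη2 z0
  refine ⟨t0, fun t ht => ?_⟩
  obtain ⟨ht1, z, hz1, hz2, hz3, hz4⟩ := ht0 t ht
  intro y hy'
  have hy : z ≤ y := by exact_mod_cast hz4.trans hy'
  -- a class of non-residues
  have hex : ∀ p : ℕ, ∃ d : ℤ, p.Prime → 3 ≤ p → jacobiSym d p = -1 := by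
    intro p
    by_cases h : p.Prime ∧ 3 ≤ p
    · haveI : Fact p.Prime := ⟨h.1⟩
      obtain ⟨a, ha⟩ := quadraticChar_exists_neg_one (F := ZMod p) (by rw [ZMod.ringChar_zmod_n]; omega)
      refine ⟨(a.val : ℤ), fun _ _ => ?_⟩
      rw [← jacobiSym.legendreSym.to_jacobiSym, legendreSym]
      push_cast
      rw [ZMod.natCast_zmod_val]
      exact ha
    · exact ⟨0, fun h1 h2 => absurd ⟨h1, h2⟩ h⟩
  choose dp hdp using hex
  obtain ⟨d0, hd0⟩ := F0aux.crt z dp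
  have hT : T (d0:ℤ) z = Fu z := by
    unfold T Fu
    refine prod_congr rfl fun p hp => ?_
    obtain ⟨⟨h3, h4⟩, h5⟩ := mem_PP.1 hp
    rw [F0aux.loc_congr (hd0 p hp)]
    unfold loc
    rw [hdp p h5 h3]
    push_cast
    ring
  have h := hz0 z hz1 y hy d0
  rw [hT] at h
  refine hz3.trans ?_
  have hQz : (1:ℝ) / (2 * 4 ^ z) ≤ 1 / (2 * Q z) := by
    refine one_div_le_one_div_of_le (by have := Qr z; positivity) ?_
    have := Q_le z
    linarith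
  refine (hQz.trans h).trans ?_
  rw [compl_Gy]
  refine div_le_div_of_nonneg_right ?_ (Qr y).le
  rw [Nat.cast_le]
  refine card_le_card fun d hd => ?_
  rw [mem_filter] at hd ⊢
  refine ⟨hd.1, ?_⟩
  have := (abs_le.1 hd.2).1
  linarith

/-- lower bound of the lower tail -/
theorem u3 (hB : B2) : ∀ C2 : ℝ, 0 < C2 →
    Tendsto (fun y : ℕ => Real.log y * ∏ p ∈ PP y, (1 - 1 / ((p : ℝ) - 1))) atTop (𝓝 (2 * C2 / eg)) →
    ∀ δ : ℝ, 0 < δ → ∃ t0 : ℝ, ∀ t : ℝ, t0 ≤ t → ∀ y : ℕ, Real.exp ((2 * C2 / eg + δ) * t) ≤ y →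
    Real.exp (-Real.exp ((2 * C2 / eg + δ) * t)) ≤ Gy y (1 / t) := by
  intro C2 hC2 hlim δ hδ
  have heg : 0 < eg := Real.exp_pos _
  have hF : Tendsto (fun z : ℕ => (Fd z)⁻¹ / Real.log z) atTop (𝓝 (eg / (2 * C2))) := by
    have h1 := Tendsto.inv₀ hlim (by positivity : 2 * C2 / eg ≠ 0)
    rw [inv_div] at h1
    refine h1.congr fun z => ?_
    show (Real.log z * Fd z)⁻¹ = _
    rw [mul_inv, div_eq_mul_inv, mul_comm]
  obtain ⟨η, hη0, hη1, hη2⟩ := real_low2 (c := eg / (2 * C2)) (by positivity) (fun z => (Fd z)⁻¹) hF δ hδ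
  rw [one_div_div] at hη2
  obtain ⟨z0, hz02, hz0⟩ := low hB hη0 hη1
  obtain ⟨t0, ht0⟩ := hη2 z0
  refine ⟨t0, fun t ht => ?_⟩
  obtain ⟨ht1, z, hz1, hz2, hz3, hz4⟩ := ht0 t ht
  intro y hy'
  have hy : z ≤ y := by exact_mod_cast hz4.trans hy'
  have hT : T ((1:ℕ):ℤ) z = Fd z := by
    unfold T Fd
    refine prod_congr rfl fun p hp => ?_
    unfold loc
    rw [Nat.cast_one, jacobiSym.one_left]
    push_cast
    ring
  have h := hz0 z hz1 y hy 1
  rw [hT] at h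
  refine hz3.trans ?_
  have hQz : (1:ℝ) / (2 * 4 ^ z) ≤ 1 / (2 * Q z) := by
    refine one_div_le_one_div_of_le (by have := Qr z; positivity) ?_
    have := Q_le z
    linarith
  refine (hQz.trans h).trans ?_
  unfold Gy
  refine div_le_div_of_nonneg_right ?_ (Qr y).le
  rw [Nat.cast_le]
  refine card_le_card fun d hd => ?_
  rw [mem_filter] at hd ⊢
  refine ⟨hd.1, ?_⟩
  have h5 := (abs_le.1 hd.2).2
  have hFd := Fd_pos z
  have h6 : t * Fd z < 1 - η := by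
    have := mul_lt_mul_of_pos_right hz2 hFd
    rw [mul_assoc, inv_mul_cancel₀ hFd.ne', mul_one] at this
    exact this
  rw [le_div_iff₀ ht1]
  have h7 : T (d:ℤ) y ≤ (1 + η) * Fd z := by linarith
  have h8 : T (d:ℤ) y * t ≤ (1 + η) * Fd z * t := mul_le_mul_of_nonneg_right h7 ht1.le
  have h9 : (1 + η) * (t * Fd z) ≤ (1 + η) * (1 - η) := mul_le_mul_of_nonneg_left h6.le (by linarith)
  nlinarith

end Pool.Agent.Run7.h870.LE
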