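import Pool.Agent.Run7.h870.LE.Low
import Pool.Agent.Run7.h870.LE.Ld

/-!
# LE/Pre: counts of the truncated products, the middle primes, the sum of `1 / log (m² + a)` (helper870)
-/

set_option autoImplicit false

namespace Pool.Agent.Run7.h870.LE

open Finset Filter Topology Classical
open Pool.Agent.N511.LL
open Pool.Agent.Run7.h870.LJ

lemma refl_d (M i : ℕ) (hi : i < M) : (-4 * (M:ℤ)) + ((4:ℕ):ℤ) * (i:ℤ) = -4 * ((M - i : ℕ):ℤ) := by
  have : ((M - i : ℕ):ℤ) = M - i := by omega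
  rw [this]; push_cast; ring

/-- the number of the `a ≤ M` with `T (-4 a) y ≤ t` -/
lemma cntT (M y : ℕ) (t : ℝ) :
    |(#((Icc 1 M).filter (fun a : ℕ => T (-4 * (a:ℤ)) y ≤ t)) : ℝ) - M * Gy y t| ≤ Q y := by
  have h := (@c0 Unit y (fun _ => 0) (fun _ => -1) (fun _ => t) 4 M (-4 * (M:ℤ)) (KK.cop y 2)).1
  rw [← Gy_eq] at h
  rw [bij_full]
  refine le_trans (le_of_eq ?_) h
  congr 4
  refine filter_congr fun i hi => ?_
  rw [mem_range] at hi
  unfold InBox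
  rw [refl_d M i hi]
  constructor
  · intro h _
    rw [add_zero]
    exact ⟨by linarith [T_posj (-4 * ((M - i : ℕ):ℤ)) y], h⟩
  · intro h
    have := (h ()).2
    rwa [add_zero] at this

/-- the complement -/
lemma cntT' (M y : ℕ) (t : ℝ) :
    |(#((Icc 1 M).filter (fun a : ℕ => t < T (-4 * (a:ℤ)) y)) : ℝ) - M * (1 - Gy y t)| ≤ Q y := by
  have h := cntT M y t
  have h1 := card_filter_add_card_filter_not (s := Icc 1 M) (fun a : ℕ => T (-4 * (a:ℤ)) y ≤ t)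
  rw [Nat.card_Icc, Nat.add_sub_cancel] at h1
  have e : (Icc 1 M).filter (fun a : ℕ => ¬ T (-4 * (a:ℤ)) y ≤ t) = (Icc 1 M).filter (fun a : ℕ => t < T (-4 * (a:ℤ)) y) :=
    filter_congr fun d _ => not_le
  rw [e] at h1
  have h2 : (#((Icc 1 M).filter (fun a : ℕ => T (-4 * (a:ℤ)) y ≤ t)) : ℝ) +
    #((Icc 1 M).filter (fun a : ℕ => t < T (-4 * (a:ℤ)) y)) = M := by exact_mod_cast h1
  rw [abs_le] at h ⊢
  constructor <;> linarith [h.1, h.2]

lemma PR_four {y z : ℕ} (hy : 2 ≤ y) : PR 4 y z = PR 1 y z := by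
  unfold PR
  refine filter_congr fun p hp => ?_
  rw [mem_Ioc] at hp
  constructor
  · rintro ⟨h1, _⟩
    exact ⟨h1, fun h => by have := Nat.dvd_one.1 h; omega⟩
  · rintro ⟨h1, _⟩
    refine ⟨h1, fun h => ?_⟩
    have h2 : p ∣ 2 ^ 2 := by norm_num; exact h
    have h3 := h1.dvd_of_dvd_pow h2
    have := Nat.le_of_dvd (by norm_num) h3
    omega

/-- the primes between `y` and `z` -/
lemma mid {e : ℝ} (he0 : 0 < e) (he1 : 4 * e ≤ 1) {y z M : ℕ} (hy : 2 ≤ y) (h10 : 10 / (y:ℝ) ≤ e)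
    (hM : (z:ℝ) ^ 2 * y ≤ M) :
    (#((Icc 1 M).filter (fun a : ℕ => 4 * e < |∏ p ∈ PR 1 y z, loc (-4 * (a:ℤ)) p - 1|)) : ℝ) ≤
      2 * M / (e ^ 2 * y) := by
  have hy0 : (0:ℝ) < y := by exact_mod_cast (by omega : 0 < y)
  set g : ℕ → ℝ := fun i => ∑ p ∈ PR 4 y z, (jacobiSym (-4 * (M:ℤ) + ((4:ℕ):ℤ) * i) p : ℝ) / p with hg
  rw [bij_full]
  have hsub : (range M).filter (fun i : ℕ => 4 * e < |∏ p ∈ PR 1 y z, loc (-4 * ((M - i : ℕ):ℤ)) p - 1|) ⊆
      (range M).filter (fun i : ℕ => e < |g i|) := by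
    intro i hi
    rw [mem_filter] at hi ⊢
    refine ⟨hi.1, ?_⟩
    by_contra hcon
    push Not at hcon
    have hiM := mem_range.1 hi.1
    obtain ⟨h1, h2⟩ := Baux.log_prod (κ := 4) (z := z) hy (-4 * (M:ℤ) + ((4:ℕ):ℤ) * i)
    have h3' := hi.2
    rw [← PR_four hy, ← refl_d M i hiM] at h3'
    set P := ∏ p ∈ PR 4 y z, loc (-4 * (M:ℤ) + ((4:ℕ):ℤ) * i) p with hP
    have h3 : |Real.log P| ≤ 2 * e := by
      have h4 : Real.log P = (Real.log P + g i) - g i := by ring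
      rw [h4]
      refine (abs_sub _ _).trans ?_
      have h5 : |Real.log P + g i| ≤ 10 / y := h2
      linarith
    have h4 := Real.abs_exp_sub_one_le (x := Real.log P) (by linarith)
    rw [Real.exp_log h1] at h4
    linarith
  have hcount : (#((range M).filter (fun i : ℕ => e < |g i|)) : ℝ) * e ^ 2 ≤ (M : ℝ) / y + (z : ℝ) ^ 2 := by
    refine le_trans ?_ (b1 y z M 4 (-4 * (M:ℤ)) hy (by norm_num))
    calc (#((range M).filter (fun i : ℕ => e < |g i|)) : ℝ) * e ^ 2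
        = ∑ i ∈ (range M).filter (fun i : ℕ => e < |g i|), e ^ 2 := by
          rw [Finset.sum_const, nsmul_eq_mul]
      _ ≤ ∑ i ∈ (range M).filter (fun i : ℕ => e < |g i|), g i ^ 2 := by
          refine Finset.sum_le_sum fun i hi => ?_
          rw [← sq_abs (g i)]
          exact pow_le_pow_left₀ he0.le (mem_filter.1 hi).2.le 2
      _ ≤ ∑ i ∈ range M, g i ^ 2 :=
          Finset.sum_le_sum_of_subset_of_nonneg (Finset.filter_subset _ _) fun _ _ _ => sq_nonneg _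
  have hz2 : (z : ℝ) ^ 2 ≤ M / y := by
    rw [le_div_iff₀ hy0]; exact hM
  have h9 : (#((range M).filter (fun i : ℕ => 4 * e < |∏ p ∈ PR 1 y z, loc (-4 * ((M - i : ℕ):ℤ)) p - 1|)) : ℝ) ≤
      #((range M).filter (fun i : ℕ => e < |g i|)) := by exact_mod_cast card_le_card hsub
  refine h9.trans ?_
  rw [le_div_iff₀ (by positivity)]
  have h10 : (M:ℝ) / y * y = M := by field_simp
  nlinarith

/-- the sum of the densities -/
lemma sum_log (θ : ℝ) (hθ : 0 < θ) : ∃ N0 : ℕ, ∀ N : ℕ, N0 ≤ N → ∀ a : ℕ, 1 ≤ a → a ≤ N ^ 2 →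
    |∑ m ∈ Icc 1 N, 1 / Real.log ((m:ℝ) ^ 2 + a) - N / (2 * Real.log N)| ≤ θ * (N / (2 * Real.log N)) := by
  obtain ⟨τ, hτ0, hτ1, hτ2⟩ : ∃ τ : ℝ, 0 < τ ∧ τ ≤ 1 / 2 ∧ 4 * τ ≤ θ :=
    ⟨min (1 / 2) (θ / 4), by positivity, min_le_left _ _, by have := min_le_right (1 / 2) (θ / 4); linarith⟩
  have hl2 : 0 < Real.log 2 := Real.log_pos (by norm_num)
  have h1 := (isLittleO_log_rpow_atTop hτ0).def (show 0 < τ * Real.log 2 / 2 by positivity)
  have h3 : Tendsto (fun N : ℕ => (N : ℝ)) atTop atTop := tendsto_natCast_atTop_atTop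
  obtain ⟨N0, hN0⟩ := eventually_atTop.1 ((h3.eventually h1).and ((log_tend.eventually_ge_atTop (Real.log 2 / (2 * τ))).and
    (eventually_ge_atTop 3)))
  refine ⟨N0, fun N hN a ha1 ha2 => ?_⟩
  obtain ⟨a1, a2, a4⟩ := hN0 N hN
  set x : ℝ := (N:ℝ) with hx
  have hN3 : (3:ℝ) ≤ x := by rw [hx]; exact_mod_cast a4
  have hx0 : 0 < x := by linarith
  set L := Real.log x with hL
  have hL0 : 0 < L := Real.log_pos (by linarith)
  have hτx : 0 < x ^ τ := Real.rpow_pos_of_pos hx0 _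
  rw [Real.norm_of_nonneg hL0.le, Real.norm_of_nonneg hτx.le] at a1
  set w := x ^ (1 - τ) with hw
  have hw0 : 0 < w := Real.rpow_pos_of_pos hx0 _
  have hwx : w * x ^ τ = x := by rw [hw, ← Real.rpow_add hx0]; simp
  have hwn : w / Real.log 2 * (2 * L) ≤ τ * x := by
    have e1 : w / Real.log 2 * (2 * L) ≤ w / Real.log 2 * (2 * (τ * Real.log 2 / 2 * x ^ τ)) := by gcongr
    have e2 : w / Real.log 2 * (2 * (τ * Real.log 2 / 2 * x ^ τ)) = τ * (w * x ^ τ) := by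
      field_simp
    rw [e2, hwx] at e1
    exact e1
  have hlw : Real.log w = (1 - τ) * L := by rw [hw, Real.log_rpow hx0]
  have har : (1:ℝ) ≤ a := by exact_mod_cast ha1
  have har2 : (a:ℝ) ≤ x ^ 2 := by rw [hx]; exact_mod_cast ha2
  have hterm : ∀ m ∈ Icc 1 N, Real.log 2 ≤ Real.log ((m:ℝ) ^ 2 + a) ∧ Real.log ((m:ℝ) ^ 2 + a) ≤ Real.log 2 + 2 * L := by
    intro m hm
    obtain ⟨hm1, hm2⟩ := mem_Icc.1 hm
    have hm1' : (1:ℝ) ≤ m := by exact_mod_cast hm1
    have hm2' : (m:ℝ) ≤ x := by rw [hx]; exact_mod_cast hm2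
    constructor
    · exact Real.log_le_log (by norm_num) (by nlinarith)
    · have e1 : (m:ℝ) ^ 2 + a ≤ 2 * x ^ 2 := by nlinarith
      have e2 := Real.log_le_log (by positivity) e1
      rw [Real.log_mul (by norm_num) (by positivity), Real.log_pow] at e2
      push_cast at e2
      exact e2
  have c5 : 0 < x / (2 * L) := by positivity
  -- lower bound
  have hlow : (1 - τ) * (x / (2 * L)) ≤ ∑ m ∈ Icc 1 N, 1 / Real.log ((m:ℝ) ^ 2 + a) := by
    have e1 : ∑ m ∈ Icc 1 N, 1 / (Real.log 2 + 2 * L) ≤ ∑ m ∈ Icc 1 N, 1 / Real.log ((m:ℝ) ^ 2 + a) :=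
      sum_le_sum fun m hm => one_div_le_one_div_of_le (lt_of_lt_of_le hl2 (hterm m hm).1) (hterm m hm).2
    rw [sum_const, Nat.card_Icc, Nat.add_sub_cancel, nsmul_eq_mul] at e1
    refine le_trans ?_ e1
    show (1 - τ) * (x / (2 * L)) ≤ x * (1 / (Real.log 2 + 2 * L))
    rw [mul_one_div, mul_div_assoc', div_le_div_iff₀ (by positivity) (by positivity)]
    have e2 : Real.log 2 ≤ 2 * τ * L := by
      rw [div_le_iff₀ (by positivity)] at a2
      linarith
    have e3 : (1 - τ) * (Real.log 2 + 2 * L) ≤ 2 * L := by nlinarith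
    nlinarith
  -- upper bound
  have hup : ∑ m ∈ Icc 1 N, 1 / Real.log ((m:ℝ) ^ 2 + a) ≤ (1 + 3 * τ) * (x / (2 * L)) := by
    have h1τ : 0 < 1 - τ := by linarith
    have e1 : ∀ m ∈ Icc 1 N, 1 / Real.log ((m:ℝ) ^ 2 + a) ≤
        (if (m:ℝ) ≤ w then 1 / Real.log 2 else 0) + 1 / (2 * ((1 - τ) * L)) := by
      intro m hm
      obtain ⟨f1, f2⟩ := hterm m hm
      split_ifs with hmw
      · have e2 := one_div_le_one_div_of_le hl2 f1
        have : 0 < 1 / (2 * ((1 - τ) * L)) := by positivity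
        linarith
      · rw [zero_add]
        push Not at hmw
        have e2 : Real.log (w ^ 2) ≤ Real.log ((m:ℝ) ^ 2 + a) := by
          refine Real.log_le_log (by positivity) ?_
          nlinarith
        rw [Real.log_pow, hlw] at e2
        push_cast at e2
        exact one_div_le_one_div_of_le (by positivity) e2
    refine (sum_le_sum e1).trans ?_
    rw [sum_add_distrib, sum_const, Nat.card_Icc, Nat.add_sub_cancel, nsmul_eq_mul, ← sum_filter, sum_const, nsmul_eq_mul]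
    have e2 : (#((Icc 1 N).filter (fun m : ℕ => (m:ℝ) ≤ w)) : ℝ) ≤ w := by
      have h : (Icc 1 N).filter (fun m : ℕ => (m:ℝ) ≤ w) ⊆ Icc 1 ⌊w⌋₊ := by
        intro m hm
        rw [mem_filter, mem_Icc] at hm
        exact mem_Icc.2 ⟨hm.1.1, Nat.le_floor hm.2⟩
      have h2 := card_le_card h
      rw [Nat.card_Icc, Nat.add_sub_cancel] at h2
      have h3 : (#((Icc 1 N).filter (fun m : ℕ => (m:ℝ) ≤ w)) : ℝ) ≤ (⌊w⌋₊ : ℝ) := by exact_mod_cast h2
      exact h3.trans (Nat.floor_le hw0.le)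
    have e3 : (#((Icc 1 N).filter (fun m : ℕ => (m:ℝ) ≤ w)) : ℝ) * (1 / Real.log 2) ≤ τ * (x / (2 * L)) := by
      have e4 : (#((Icc 1 N).filter (fun m : ℕ => (m:ℝ) ≤ w)) : ℝ) * (1 / Real.log 2) ≤ w * (1 / Real.log 2) :=
        mul_le_mul_of_nonneg_right e2 (by positivity)
      refine e4.trans ?_
      rw [mul_one_div, mul_div_assoc', le_div_iff₀ (by positivity)]
      exact hwn
    have e4 : (N:ℝ) * (1 / (2 * ((1 - τ) * L))) ≤ (1 + 2 * τ) * (x / (2 * L)) := by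
      show x * (1 / (2 * ((1 - τ) * L))) ≤ (1 + 2 * τ) * (x / (2 * L))
      rw [mul_one_div, mul_div_assoc', div_le_div_iff₀ (by positivity) (by positivity)]
      have e5 : 1 ≤ (1 + 2 * τ) * (1 - τ) := by nlinarith
      have e6 : x * (2 * L) * 1 ≤ x * (2 * L) * ((1 + 2 * τ) * (1 - τ)) :=
        mul_le_mul_of_nonneg_left e5 (by positivity)
      nlinarith
    linarith
  have c4 : 3 * τ * (x / (2 * L)) ≤ θ * (x / (2 * L)) := mul_le_mul_of_nonneg_right (by linarith) c5.le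
  rw [abs_le]
  constructor
  · have : τ * (x / (2 * L)) ≤ 3 * τ * (x / (2 * L)) := by nlinarith
    linarith
  · linarith

end Pool.Agent.Run7.h870.LE
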